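import Mathlib

set_option autoImplicit false
open Real

namespace Pool.Agent.Results.MP_ca4252_co.Slope

/-- The substitution `0 ↦ 01`, `1 ↦ 0` (with `0 = false`, `1 = true`). -/
def sub (b : Bool) : List Bool := if b then [false] else [false, true]

/-- The iterates of the substitution on the word `0`. -/
def S : ℕ → List Bool
  | 0 => [false]
  | n + 1 => (S n).flatMap sub

/-- The Fibonacci word (`S i` has more than `i` letters). -/
def f (i : ℕ) : Bool := (S i).getD i false

noncomputable def b : ℝ := (√5 - 1) / 2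

theorem b2 : b ^ 2 = 1 - b := by
  have := Real.sq_sqrt (show (0 : ℝ) ≤ 5 by norm_num)
  unfold b; linarith

theorem bb : 0.618 < b ∧ b < 0.6181 := by
  have := b2
  have : 0 < b := by
    have : (1 : ℝ) < √5 := Real.lt_sqrt_of_sq_lt (by norm_num)
    unfold b; linarith
  constructor <;> nlinarith

theorem nrm (p q : ℤ) (h : 0 < q) : 1 ≤ |q * b - p| * |p + q * (b + 1)| := by
  have e : (q * b - p) * (p + q * (b + 1)) = ((q ^ 2 - p * q - p ^ 2 : ℤ) : ℝ) := by
    push_cast; linear_combination (q : ℝ) ^ 2 * b2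
  rw [← abs_mul, e, ← Int.cast_abs]
  refine mod_cast Int.one_le_abs fun c => ?_
  have i : Irrational √5 := by simpa using (Nat.Prime.irrational_sqrt (show Nat.Prime 5 by norm_num))
  have q0 : (0 : ℝ) < q := by exact_mod_cast h
  refine i ⟨|(2 * p + q) / q|, ?_⟩
  have : ((q ^ 2 - p * q - p ^ 2 : ℤ) : ℝ) = 0 := by rw [c]; simp
  push_cast at this ⊢
  rw [← Real.sqrt_sq_eq_abs]
  congr 1; field_simp; linarith

open Classical in
noncomputable def g (n : ℕ) : Bool := decide (Int.fract ((n + 1) * b) < 1 - b)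

theorem fix (n : ℕ) : ((List.range n).map g).flatMap sub = (List.range (n + ⌊(n + 1) * b⌋₊)).map g := by
  obtain ⟨b1, b3⟩ := bb
  induction n with
  | zero => simp; linarith
  | succ n ih =>
    rw [List.range_succ, List.map_append, List.flatMap_append, ih]
    obtain ⟨c, hc⟩ : ∃ c, c = ⌊(n + 1) * b⌋₊ := ⟨_, rfl⟩
    have c1 : (c : ℝ) ≤ (n + 1) * b := hc ▸ Nat.floor_le (by positivity)
    have c2 : (n + 1) * b < c + 1 := hc ▸ Nat.lt_floor_add_one _
    have c3 : (c : ℝ) ≠ (n + 1) * b := fun e => by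
      have := nrm c (n + 1) (by omega)
      push_cast at this
      rw [e] at this; norm_num at this
    have c4 : (c + 1 : ℝ) ≠ (n + 2) * b := fun e => by
      have := nrm (c + 1) (n + 2) (by omega)
      push_cast at this
      rw [e] at this; norm_num at this
    have c5 := lt_of_le_of_ne c1 c3
    have f0 : Int.fract ((n + 1) * b) = (n + 1) * b - c :=
      Int.fract_eq_iff.mpr ⟨by linarith, by linarith, c, by simp⟩
    have f1 : g (n + c) = false := by
      rw [g, Int.fract_eq_iff.mpr (show 0 ≤ ((n + c : ℕ) + 1) * b - n ∧ _ from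
        ⟨by push_cast; nlinarith [b2], by push_cast; nlinarith [b2], n, by simp⟩)]
      push_cast; simp only [decide_eq_false_iff_not]; nlinarith [b2]
    rw [← hc]
    by_cases d : (n + 1) * b - c < 1 - b
    · have : g n = true := by rw [g, f0]; simpa using d
      rw [show ⌊((n + 1 : ℕ) + 1) * b⌋₊ = c from (Nat.floor_eq_iff (by positivity)).mpr
        ⟨by push_cast; linarith, by push_cast; linarith⟩, add_right_comm, List.range_succ]
      simp [this, sub, f1]
    · have : g n = false := by rw [g, f0]; simpa using d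
      have d' := lt_of_le_of_ne (show (c + 1 : ℝ) ≤ (n + 2) * b by linarith) c4
      have f2 : g (n + c + 1) = true := by
        rw [g, Int.fract_eq_iff.mpr (show 0 ≤ ((n + c + 1 : ℕ) + 1) * b - (n + 1) ∧ _ from
          ⟨by push_cast; nlinarith [b2], by push_cast; nlinarith [b2], n + 1, by simp⟩)]
        push_cast; simp only [decide_eq_true_eq]; nlinarith [b2]
      rw [show ⌊((n + 1 : ℕ) + 1) * b⌋₊ = c + 1 from (Nat.floor_eq_iff (by positivity)).mpr
        ⟨by push_cast; linarith, by push_cast; linarith⟩, show n + 1 + (c + 1) = n + c + 1 + 1 by ring,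
        List.range_succ, List.range_succ]
      simp [this, sub, f1, f2]

theorem fg (i : ℕ) : f i = g i := by
  obtain ⟨b1, b3⟩ := bb
  have : ∀ n, ∃ l, n < l ∧ S n = (List.range l).map g := by
    intro n
    induction n with
    | zero =>
      refine ⟨1, by omega, ?_⟩
      have : Int.fract b = b := Int.fract_eq_self.mpr ⟨by linarith, by linarith⟩
      simp [S, g, this]; linarith
    | succ n ih =>
      obtain ⟨l, h1, h2⟩ := ih
      refine ⟨_, ?_, by rw [S, h2, fix]⟩
      have : (1 : ℝ) ≤ l := by exact_mod_cast (show 1 ≤ l by omega)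
      have : 0 < ⌊(l + 1) * b⌋₊ := Nat.floor_pos.mpr (by nlinarith)
      omega
  obtain ⟨l, h1, h2⟩ := this i
  simp [f, h2, h1]

theorem main (d N : ℕ) (hd : 0 < d) (y : ℕ → ℝ) (h1 : ∀ j, ∃ m : ℤ, y (j + 1) = y j + d * b - m)
    (h2 : ∀ i ≤ N, ∀ j ≤ N, y i - y j < b) : N < d * (2 - b) := by
  obtain ⟨b1, b3⟩ := bb
  have b2 := b2
  by_contra hN
  have hN := not_lt.mp hN
  have d1 : (1 : ℝ) ≤ d := by exact_mod_cast hd
  obtain ⟨p, θ, t0, t1, e⟩ : ∃ (p : ℤ) (θ : ℝ), 0 ≤ θ ∧ θ < 1 ∧ d * b = p + θ :=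
    ⟨_, _, Int.fract_nonneg _, Int.fract_lt_one _, (Int.floor_add_fract _).symm⟩
  have p0 : (0 : ℝ) ≤ p := by exact_mod_cast (show 0 ≤ p by
    by_contra c
    have : (p : ℝ) ≤ -1 := by exact_mod_cast (show p ≤ -1 by omega)
    nlinarith)
  have st : ∀ j < N, y (j + 1) = y j + θ ∨ y (j + 1) = y j + θ - 1 := by
    intro j hj
    obtain ⟨m, hm⟩ := h1 j
    have := h2 j hj.le (j + 1) hj
    have := h2 (j + 1) hj j hj.le
    have a : ((m - p : ℤ) : ℝ) < (2 : ℤ) := by push_cast; linarith
    have c : ((-1 : ℤ) : ℝ) < (m - p : ℤ) := by push_cast; linarith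
    rw [Int.cast_lt] at a c
    rcases (show m = p ∨ m = p + 1 by omega) with rfl | rfl
    · left; linarith
    · right; push_cast at hm; linarith
  have lin : ∀ s : ℝ, (∀ j < N, y (j + 1) = y j + s) → ∀ j ≤ N, y j = y 0 + j * s := by
    intro s h j
    induction j with
    | zero => simp
    | succ j ih => intro hj; rw [h j hj, ih (by omega)]; push_cast; ring
  by_cases c1 : θ ≤ 1 - b
  · have := lin θ (fun j hj => (st j hj).resolve_right fun c => by
      linarith [h2 j hj.le (j + 1) hj]) N le_rfl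
    have u := h2 N le_rfl 0 (by omega)
    have v := nrm p d (by omega)
    push_cast at v
    rw [abs_of_nonneg (by linarith), abs_of_nonneg (by positivity), show d * b - p = θ by linarith,
      show (p : ℝ) = d * b - θ by linarith] at v
    have := mul_le_mul_of_nonneg_right hN t0
    have := mul_le_mul_of_nonneg_left v (show 0 ≤ b by linarith)
    have : b * (θ * (d * b - θ + d * (b + 1))) = d * (2 - b) * θ - b * θ ^ 2 := by
      linear_combination 2 * d * θ * b2
    nlinarith [mul_nonneg (show 0 ≤ b by linarith) (sq_nonneg θ)]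
  by_cases c2 : b ≤ θ
  · have := lin (θ - 1) (fun j hj => by
      rw [(st j hj).resolve_left fun c => by linarith [h2 (j + 1) hj j hj.le]]; ring) N le_rfl
    have u := h2 0 (by omega) N le_rfl
    obtain ⟨ε, hε⟩ : ∃ ε, ε = 1 - θ := ⟨_, rfl⟩
    have ε0 : 0 < ε := by linarith
    have u : N * ε < b := by rw [hε]; linarith
    have w : ε * (d * (2 * b + 1) + ε) = (((p + 1) ^ 2 + (p + 1) * d - d ^ 2 : ℤ) : ℝ) := by
      push_cast
      rw [show (p : ℝ) = d * b + ε - 1 by linarith]; linear_combination (-(d : ℝ) ^ 2) * b2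
    have w1 : d * (2 * b + 1) * ε < 1 := by
      have := mul_le_mul_of_nonneg_right hN ε0.le
      have : b * (d * (2 * b + 1) * ε) = d * (2 - b) * ε := by linear_combination 2 * d * ε * b2
      nlinarith
    have w2 : (p + 1) ^ 2 + (p + 1) * d - d ^ 2 = (1 : ℤ) := by
      have a : ((0 : ℤ) : ℝ) < ((p + 1) ^ 2 + (p + 1) * d - d ^ 2 : ℤ) := by rw [← w]; push_cast; positivity
      have c : (((p + 1) ^ 2 + (p + 1) * d - d ^ 2 : ℤ) : ℝ) < (2 : ℤ) := by rw [← w]; push_cast; nlinarith
      rw [Int.cast_lt] at a c; omega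
    rw [w2] at w
    have a : ((2 * d - (p + 1) : ℤ) : ℝ) < (N : ℤ) := by push_cast; linarith
    rw [Int.cast_lt, Int.lt_iff_add_one_le, ← Int.cast_le (R := ℝ)] at a
    push_cast at a w
    have := mul_le_mul_of_nonneg_right a ε0.le
    have : (2 * d - (p + 1) + 1) * ε = b + ε * (1 - ε * (1 + b)) := by
      rw [show (p : ℝ) = d * b + ε - 1 by linarith]; linear_combination b * w - 2 * d * ε * b2
    nlinarith [mul_pos ε0 (show 0 < 1 - ε * (1 + b) by nlinarith)]
  have two : ∀ j t, j + 2 * t ≤ N → y (j + 2 * t) = y j + t * (2 * θ - 1) := by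
    intro j t
    induction t with
    | zero => simp
    | succ t ih =>
      intro h
      have a := st (j + 2 * t) (by omega)
      have c := st (j + 2 * t + 1) (by omega)
      have u := h2 (j + 2 * t) (by omega) (j + 2 * t + 1 + 1) (by omega)
      have v := h2 (j + 2 * t + 1 + 1) (by omega) (j + 2 * t) (by omega)
      have := ih (by omega)
      rw [show j + 2 * (t + 1) = j + 2 * t + 1 + 1 by ring]; push_cast
      rcases a with a | a <;> rcases c with c | c <;> linarith
  have key : ∀ t : ℕ, 2 * t + 2 ≤ N → (2 * t + 1) * |2 * θ - 1| < 2 * b - 1 := by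
    intro t ht
    have a := two 0 (t + 1) (by omega)
    have c := two 1 t (by omega)
    have u1 := h2 1 (by omega) (0 + 2 * (t + 1)) (by omega)
    have u2 := h2 (0 + 2 * (t + 1)) (by omega) 1 (by omega)
    have u3 := h2 0 (by omega) (1 + 2 * t) (by omega)
    have u4 := h2 (1 + 2 * t) (by omega) 0 (by omega)
    have s : y 1 = y 0 + θ ∨ y 1 = y 0 + θ - 1 := st 0 (by omega)
    push_cast at a
    rcases abs_cases (2 * θ - 1) with ⟨k, -⟩ | ⟨k, -⟩ <;> rw [k] <;> rcases s with s | s <;> linarith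
  by_cases d7 : 7 ≤ d
  · have d7 : (7 : ℝ) ≤ d := by exact_mod_cast d7
    have N9 : 9 < N := by exact_mod_cast (show (9 : ℝ) < N by nlinarith)
    have k := key (N / 2 - 1) (by omega)
    have : (N : ℝ) ≤ 2 * (N / 2 - 1 : ℕ) + 3 := by exact_mod_cast (show N ≤ 2 * (N / 2 - 1) + 3 by omega)
    have v := nrm (2 * p + 1) (2 * d) (by omega)
    push_cast at v
    rw [abs_of_nonneg (show (0 : ℝ) ≤ 2 * p + 1 + 2 * d * (b + 1) by positivity), show 2 * d * b - (2 * p + 1) = 2 * θ - 1 by linarith]
      at v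
    have a0 := abs_nonneg (2 * θ - 1)
    generalize |2 * θ - 1| = η at *
    have v2 : 1 ≤ η * (4.4724 * d + 0.24) := v.trans (mul_le_mul_of_nonneg_left (by nlinarith) a0)
    have k2 : (1.3819 * d - 2) * η < 0.2362 :=
      lt_of_le_of_lt (mul_le_mul_of_nonneg_right (by nlinarith) a0) (k.trans (by linarith))
    nlinarith
  · have a : ((100 * p : ℤ) : ℝ) < (62 * d - 38 : ℤ) := by push_cast; nlinarith
    have c : ((618 * d : ℤ) : ℝ) < (1000 * p + 619 : ℤ) := by push_cast; nlinarith
    rw [Int.cast_lt] at a c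
    rcases (show d = 1 ∧ p = 0 ∨ d = 4 ∧ p = 2 by
      have := not_le.mp d7
      interval_cases d <;> omega) with ⟨rfl, rfl⟩ | ⟨rfl, rfl⟩
    · simp at e; linarith
    · have N5 : 5 < N := by exact_mod_cast (show (5 : ℝ) < N by push_cast at hN; linarith)
      have := key 2 (by omega)
      push_cast at e this
      linarith [neg_le_abs (2 * θ - 1)]

theorem result (d : ℕ) (hd : 1 ≤ d) : ∃ A : ℕ, IsGreatest {k | ∃ i, ∀ j < k, f (i + j * d) = f i} A ∧
    ((A : ℝ) - 1) / d < √5 / goldenRatio := by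
  obtain ⟨b1, b3⟩ := bb
  have d1 : (1 : ℝ) ≤ d := by exact_mod_cast hd
  have key : ∀ k ∈ {k | ∃ i, ∀ j < k, f (i + j * d) = f i}, (k : ℝ) - 1 < d * (2 - b) := by
    rintro (_ | N) ⟨i, h⟩
    · simp; nlinarith
    · simp only [fg, g, decide_eq_decide] at h
      have := main d N hd (fun j => Int.fract (((i + j * d : ℕ) + 1) * b))
        (fun j => ⟨⌊((i + (j + 1) * d : ℕ) + 1) * b⌋ - ⌊((i + j * d : ℕ) + 1) * b⌋, by
          simp only [Int.fract]; push_cast; ring⟩) fun j hj l hl => by
        have u := h j (by omega)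
        have v := h l (by omega)
        have := Int.fract_lt_one (((i + j * d : ℕ) + 1) * b)
        have := Int.fract_nonneg (((i + l * d : ℕ) + 1) * b)
        by_cases c : Int.fract ((i + 1) * b) < 1 - b
        · linarith [u.mpr c]
        · linarith [not_lt.mp (mt v.mp c)]
      simpa using this
  have bd : BddAbove {k | ∃ i, ∀ j < k, f (i + j * d) = f i} := ⟨2 * d + 1, fun k hk => by
    have := key k hk
    exact_mod_cast (show (k : ℝ) ≤ 2 * d + 1 by nlinarith)⟩
  have m := Nat.sSup_mem (show Set.Nonempty {k | ∃ i, ∀ j < k, f (i + j * d) = f i} from ⟨0, 0, by simp⟩) bd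
  refine ⟨_, ⟨m, fun k hk => le_csSup bd hk⟩, ?_⟩
  have : √5 / goldenRatio = 2 - b := by
    rw [div_eq_iff goldenRatio_ne_zero, goldenRatio, b]
    linear_combination (1 / 4) * Real.sq_sqrt (show (0 : ℝ) ≤ 5 by norm_num)
  rw [this, div_lt_iff₀ (by linarith), mul_comm]
  exact key _ m

end Pool.Agent.Results.MP_ca4252_co.Slope
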